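import Pool.Agent.Lib.MP_af3a4a_an.P1.CHK.DATA.N54x55.K0
import Pool.Agent.Lib.MP_af3a4a_an.P1.CHK.DATA.N54x55.K1
import Pool.Agent.Lib.MP_af3a4a_an.P1.CHK.DATA.N54x55.K2
import Pool.Agent.Lib.MP_af3a4a_an.P1.CHK.DATA.N54x55.K3

/-! glue for 54 <= N <= 55 (generated) -/

set_option autoImplicit false
set_option maxRecDepth 100000

namespace Pool.Agent.Lib.MP_af3a4a_an.P1.CHK.DATA.N54x55

open BOX

theorem g0 : ChunkP 54 55 0 512 64 96 0 2484 := ChunkP.g k1 k2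
theorem g1 : ChunkP 54 55 0 512 64 101 0 2484 := ChunkP.g g0 k3
theorem g2 : ChunkP 54 55 0 512 0 101 0 2484 := ChunkP.g k0 g1
theorem g3 : ChunkP 54 55 768 1024 80 88 1488 2484 := ChunkP.r k16 k17
theorem g4 : ChunkP 54 55 768 1024 80 88 1440 2484 := ChunkP.R k15 g3
theorem g5 : ChunkP 54 55 768 1024 80 88 1392 2484 := ChunkP.R k14 g4
theorem g6 : ChunkP 54 55 768 1024 80 88 1296 2484 := ChunkP.R k13 g5
theorem g7 : ChunkP 54 55 768 1024 80 88 1056 2484 := ChunkP.R k12 g6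
theorem g8 : ChunkP 54 55 768 1024 80 88 624 2484 := ChunkP.R k11 g7
theorem g9 : ChunkP 54 55 768 1024 80 96 624 2484 := ChunkP.g g8 k18
theorem g10 : ChunkP 54 55 768 1024 80 96 576 2484 := ChunkP.R k10 g9
theorem g11 : ChunkP 54 55 768 1024 80 96 480 2484 := ChunkP.R k9 g10
theorem g12 : ChunkP 54 55 512 1024 80 96 480 2484 := ChunkP.r k8 g11
theorem g13 : ChunkP 54 55 512 1024 80 96 432 2484 := ChunkP.R k7 g12
theorem g14 : ChunkP 54 55 512 1024 80 96 0 2484 := ChunkP.R k6 g13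
theorem g15 : ChunkP 54 55 512 1024 64 96 0 2484 := ChunkP.g k5 g14
theorem g16 : ChunkP 54 55 512 1024 64 101 0 2484 := ChunkP.g g15 k19
theorem g17 : ChunkP 54 55 512 1024 0 101 0 2484 := ChunkP.g k4 g16
theorem g18 : ChunkP 54 55 0 1024 0 101 0 2484 := ChunkP.r g2 g17
theorem g19 : ChunkP 54 55 1024 1536 64 80 480 2484 := ChunkP.r k23 k24
theorem g20 : ChunkP 54 55 1024 1536 64 80 432 2484 := ChunkP.R k22 g19
theorem g21 : ChunkP 54 55 1024 1536 64 80 0 2484 := ChunkP.R k21 g20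
theorem g22 : ChunkP 54 55 1024 1280 80 88 1248 2484 := ChunkP.r k32 k33
theorem g23 : ChunkP 54 55 1024 1280 80 88 1200 2484 := ChunkP.R k31 g22
theorem g24 : ChunkP 54 55 1024 1280 80 88 1104 2484 := ChunkP.R k30 g23
theorem g25 : ChunkP 54 55 1024 1280 80 88 960 2484 := ChunkP.R k29 g24
theorem g26 : ChunkP 54 55 1024 1280 80 88 576 2484 := ChunkP.R k28 g25
theorem g27 : ChunkP 54 55 1024 1280 80 96 576 2484 := ChunkP.g g26 k34
theorem g28 : ChunkP 54 55 1024 1280 80 96 480 2484 := ChunkP.R k27 g27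
theorem g29 : ChunkP 54 55 1024 1536 80 96 480 2484 := ChunkP.r g28 k35
theorem g30 : ChunkP 54 55 1024 1536 80 96 432 2484 := ChunkP.R k26 g29
theorem g31 : ChunkP 54 55 1024 1536 80 96 0 2484 := ChunkP.R k25 g30
theorem g32 : ChunkP 54 55 1024 1536 64 96 0 2484 := ChunkP.g g21 g31
theorem g33 : ChunkP 54 55 1024 1536 64 101 0 2484 := ChunkP.g g32 k36
theorem g34 : ChunkP 54 55 1024 1536 0 101 0 2484 := ChunkP.g k20 g33
theorem g35 : ChunkP 54 55 1536 2048 64 96 0 2484 := ChunkP.g k38 k39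
theorem g36 : ChunkP 54 55 1536 2048 64 101 0 2484 := ChunkP.g g35 k40
theorem g37 : ChunkP 54 55 1536 2048 0 101 0 2484 := ChunkP.g k37 g36
theorem g38 : ChunkP 54 55 1024 2048 0 101 0 2484 := ChunkP.r g34 g37
theorem g39 : ChunkP 54 55 0 2048 0 101 0 2484 := ChunkP.r g18 g38
theorem g40 : ChunkP 54 55 2048 3072 0 101 0 2484 := ChunkP.r k41 k42
theorem g41 : ChunkP 54 55 2048 4096 0 101 0 2484 := ChunkP.r g40 k43
theorem g42 : ChunkP 54 55 0 4096 0 101 0 2484 := ChunkP.r g39 g41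

/-- the whole box -/
theorem allBox : ChunkP 54 55 0 4096 0 101 0 2484 := g42

theorem full {N : ℕ} (hNa : 54 ≤ N) (hNb : N ≤ 55) {z w : Fin N → ℂ} {R : ℝ} {σ : Fin N → ℂ}
    (hC : Pool.Agent.Lib.MP_af3a4a_an.P1.H80.Cfg2 N z w R σ) : ((2484 : ℕ) : ℝ) / 1024 < R := ChunkP.full allBox hNa hNb hC

end Pool.Agent.Lib.MP_af3a4a_an.P1.CHK.DATA.N54x55
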